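import Mathlib

set_option autoImplicit false

/-!
# The number of isomorphism types of `θ`-complete algebras of sets

Let `θ` be a regular cardinal and `X` an infinite set with `|X|^{<θ} = |X|`. There are exactly
`2 ^ (2 ^ |X|)` isomorphism types of `θ`-complete algebras of subsets of `X` (algebras closed under
unions of fewer than `θ` members). For `θ = ℵ₀` this holds for every infinite set `X`; for
`θ = ℵ₁` and `X = ℝ` it counts the `σ`-algebras of sets of reals.

Proof. There is a family `A_i`, `i ∈ P(X)`, of subsets of `X` which is `θ`-independent modulo sets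
of size less than `θ`. For `J ⊆ P(X)` let `B_J` be the family of the sets `Z ⊆ X` for which there
are a set `F ⊆ J` and a set `E ⊆ X` of size less than `θ` such that whether `x ∉ E` belongs to `Z`
depends only on `{j ∈ F : x ∈ A_j}`. The `B_J` are different `θ`-complete algebras that contain all
singletons, so an isomorphism between two of them is induced by a permutation of `X`, and there are
only `2 ^ |X|` permutations.
-/

namespace Pool.Agent.Results.MP_4ec73f_lc.CompleteAlgebras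

open Set
open Cardinal hiding univ

universe u

/-- `B` is a `θ`-complete algebra of subsets of `X`: it is closed under complements and under
unions of fewer than `θ` of its members (in particular it contains `∅` and `X`). -/
def IsAlgebra {X : Type u} (θ : Cardinal.{u}) (B : Set (Set X)) : Prop :=
  (∀ Z ∈ B, Zᶜ ∈ B) ∧ ∀ A : Set (Set X), A ⊆ B → #A < θ → ⋃₀ A ∈ B

/-- Isomorphism of two families as abstract Boolean algebras: a bijection preserving finite
unions, finite intersections and complements. -/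
def Isomorphic {X : Type u} (B C : Set (Set X)) : Prop :=
  ∃ f : Set X → Set X, BijOn f B C ∧ (∀ Y ∈ B, ∀ Z ∈ B, f (Y ∪ Z) = f Y ∪ f Z) ∧
    (∀ Y ∈ B, ∀ Z ∈ B, f (Y ∩ Z) = f Y ∩ f Z) ∧ (∀ Z ∈ B, f Zᶜ = (f Z)ᶜ)

section

variable {X : Type u} {θ : Cardinal.{u}} {B C : Set (Set X)}

theorem IsAlgebra.empty (h : IsAlgebra θ B) (hθ : ℵ₀ ≤ θ) : ∅ ∈ B := by
  have := h.2 ∅ (empty_subset _) (by
    rw [mk_eq_zero]
    exact lt_of_lt_of_le aleph0_pos hθ)
  rwa [sUnion_empty] at this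

theorem IsAlgebra.univ (h : IsAlgebra θ B) (hθ : ℵ₀ ≤ θ) : univ ∈ B := by
  have := h.1 _ (h.empty hθ)
  rwa [compl_empty] at this

theorem IsAlgebra.union (h : IsAlgebra θ B) (hθ : ℵ₀ ≤ θ) {Y Z : Set X} (hY : Y ∈ B)
    (hZ : Z ∈ B) : Y ∪ Z ∈ B := by
  have := h.2 {Y, Z} (by
    rintro W (rfl | rfl)
    exacts [hY, hZ]) (lt_of_lt_of_le (lt_aleph0_of_finite _) hθ)
  rwa [sUnion_pair] at this

theorem IsAlgebra.inter (h : IsAlgebra θ B) (hθ : ℵ₀ ≤ θ) {Y Z : Set X} (hY : Y ∈ B)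
    (hZ : Z ∈ B) : Y ∩ Z ∈ B := by
  have := h.1 _ (h.union hθ (h.1 _ hY) (h.1 _ hZ))
  rwa [compl_union, compl_compl, compl_compl] at this

theorem isomorphic_refl (B : Set (Set X)) : Isomorphic B B :=
  ⟨id, bijOn_id B, fun _ _ _ _ => rfl, fun _ _ _ _ => rfl, fun _ _ => rfl⟩

theorem isomorphic_trans {B C D : Set (Set X)} (h1 : Isomorphic B C) (h2 : Isomorphic C D) :
    Isomorphic B D := by
  obtain ⟨f, hf, f1, f2, f3⟩ := h1
  obtain ⟨g, hg, g1, g2, g3⟩ := h2
  refine ⟨g ∘ f, hg.comp hf, fun Y hY Z hZ => ?_, fun Y hY Z hZ => ?_, fun Z hZ => ?_⟩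
  · simp only [Function.comp]
    rw [f1 Y hY Z hZ, g1 _ (hf.mapsTo hY) _ (hf.mapsTo hZ)]
  · simp only [Function.comp]
    rw [f2 Y hY Z hZ, g2 _ (hf.mapsTo hY) _ (hf.mapsTo hZ)]
  · simp only [Function.comp]
    rw [f3 Z hZ, g3 _ (hf.mapsTo hZ)]

theorem isomorphic_symm (hB : IsAlgebra θ B) (hθ : ℵ₀ ≤ θ)
    (h : Isomorphic B C) : Isomorphic C B := by
  obtain ⟨f, hf, f1, f2, f3⟩ := h
  have hinv := hf.invOn_invFunOn
  have hg : BijOn (Function.invFunOn f B) C B := hf.symm hinv.symm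
  have key : ∀ Y ∈ B, Function.invFunOn f B (f Y) = Y := fun Y hY => hinv.1 hY
  have key2 : ∀ Y ∈ C, f (Function.invFunOn f B Y) = Y := fun Y hY => hinv.2 hY
  refine ⟨Function.invFunOn f B, hg, fun Y hY Z hZ => ?_, fun Y hY Z hZ => ?_, fun Z hZ => ?_⟩
  · conv_lhs => rw [← key2 Y hY, ← key2 Z hZ]
    rw [← f1 _ (hg.mapsTo hY) _ (hg.mapsTo hZ),
      key _ (hB.union hθ (hg.mapsTo hY) (hg.mapsTo hZ))]
  · conv_lhs => rw [← key2 Y hY, ← key2 Z hZ]
    rw [← f2 _ (hg.mapsTo hY) _ (hg.mapsTo hZ),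
      key _ (hB.inter hθ (hg.mapsTo hY) (hg.mapsTo hZ))]
  · conv_lhs => rw [← key2 Z hZ]
    rw [← f3 _ (hg.mapsTo hZ), key _ (hB.1 _ (hg.mapsTo hZ))]

end

/-- The relation of being isomorphic, on the type of all `θ`-complete algebras of subsets of
`X`. -/
def isoSetoid (X : Type u) (θ : Cardinal.{u}) (hθ : ℵ₀ ≤ θ) :
    Setoid {B : Set (Set X) // IsAlgebra θ B} where
  r B C := Isomorphic B.1 C.1
  iseqv := ⟨fun B => isomorphic_refl B.1, fun {B _} h => isomorphic_symm B.2 hθ h,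
    fun h1 h2 => isomorphic_trans h1 h2⟩

/-- An algebra containing all singletons is determined, within its isomorphism class, by a
self-map of `X`. -/
theorem exists_map {X : Type u} {θ : Cardinal.{u}} (hθ : ℵ₀ ≤ θ) {B C : Set (Set X)}
    (hB : IsAlgebra θ B)
    (hB1 : ∀ x : X, {x} ∈ B) (hC1 : ∀ x : X, {x} ∈ C) (h : Isomorphic B C) :
    ∃ π : X → X, C = (fun Z => π '' Z) '' B := by
  obtain ⟨f, hf, f1, f2, f3⟩ := h
  have f0 : f ∅ = ∅ := by
    have h1 := f2 ∅ (hB.empty hθ) univ (hB.univ hθ)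
    have h2 := f3 ∅ (hB.empty hθ)
    rw [compl_empty] at h2
    rw [empty_inter, h2, inter_compl_self] at h1
    exact h1
  have hne : ∀ Z ∈ B, Z.Nonempty → (f Z).Nonempty := by
    intro Z hZ hZn
    by_contra hcon
    rw [not_nonempty_iff_eq_empty, ← f0] at hcon
    exact hZn.ne_empty (hf.injOn hZ (hB.empty hθ) hcon)
  have hmono : ∀ Y ∈ B, ∀ Z ∈ B, (Y ⊆ Z ↔ f Y ⊆ f Z) := by
    intro Y hY Z hZ
    rw [← inter_eq_left, ← inter_eq_left, ← f2 Y hY Z hZ]
    constructor
    · intro h; rw [h]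
    · intro h; exact hf.injOn (hB.inter hθ hY hZ) hY h
  have hsing : ∀ x : X, ∃ y : X, f {x} = {y} := by
    intro x
    obtain ⟨y, hy⟩ := hne {x} (hB1 x) (singleton_nonempty x)
    refine ⟨y, ?_⟩
    obtain ⟨Z, hZ, hZy⟩ := hf.surjOn (hC1 y)
    have h1 : f Z ⊆ f {x} := by rw [hZy]; exact singleton_subset_iff.mpr hy
    have h2 : Z ⊆ {x} := (hmono Z hZ {x} (hB1 x)).mpr h1
    rcases subset_singleton_iff_eq.mp h2 with h3 | h3
    · exfalso
      rw [h3, f0] at hZy
      exact (singleton_ne_empty y) hZy.symm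
    · rw [← h3, hZy]
  choose π hπ using hsing
  have hπs : Function.Surjective π := by
    intro y
    obtain ⟨Z, hZ, hZy⟩ := hf.surjOn (hC1 y)
    have hZn : Z.Nonempty := by
      by_contra hcon
      rw [not_nonempty_iff_eq_empty] at hcon
      rw [hcon, f0] at hZy
      exact (singleton_ne_empty y) hZy.symm
    obtain ⟨x, hx⟩ := hZn
    refine ⟨x, ?_⟩
    have h1 : f {x} ⊆ f Z := (hmono _ (hB1 x) Z hZ).mp (singleton_subset_iff.mpr hx)
    rw [hπ, hZy] at h1
    simpa using h1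
  have himg : ∀ Z ∈ B, f Z = π '' Z := by
    intro Z hZ
    ext y
    constructor
    · intro hy
      obtain ⟨x, rfl⟩ := hπs y
      refine ⟨x, ?_, rfl⟩
      have : f {x} ⊆ f Z := by rw [hπ]; exact singleton_subset_iff.mpr hy
      exact singleton_subset_iff.mp ((hmono _ (hB1 x) Z hZ).mpr this)
    · rintro ⟨x, hx, rfl⟩
      have : f {x} ⊆ f Z := (hmono _ (hB1 x) Z hZ).mp (singleton_subset_iff.mpr hx)
      rw [hπ] at this
      exact singleton_subset_iff.mp this
  refine ⟨π, ?_⟩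
  rw [← hf.image_eq]
  exact image_congr himg

theorem le_card_of_fibres {S Q : Type u} (h : S → Q) (κ : Cardinal.{u}) (hX : ℵ₀ ≤ #S)
    (hκ : κ < #S) (hfib : ∀ x, #{y // h y = h x} ≤ κ) : #S ≤ #Q := by
  by_contra hcon
  push Not at hcon
  have h1 : #S = #(Σ q : Q, {y : S // h y = q}) :=
    mk_congr (Equiv.sigmaFiberEquiv h).symm
  have h2 : #(Σ q : Q, {y : S // h y = q}) ≤ #Q * κ := by
    rw [mk_sigma]
    refine (sum_le_sum _ (fun _ => κ) (fun q => ?_)).trans ?_
    · by_cases hq : ∃ x, h x = q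
      · obtain ⟨x, rfl⟩ := hq
        exact hfib x
      · have : IsEmpty {y : S // h y = q} := ⟨fun y => hq ⟨y.1, y.2⟩⟩
        rw [mk_eq_zero]
        exact bot_le
    · simp
  have h3 : #Q * κ < #S := mul_lt_of_lt hX hcon hκ
  exact absurd (h1.le.trans h2) (not_le.mpr h3)

/-- the subsets of size less than `θ` -/
abbrev Sm (θ : Cardinal.{u}) (α : Type u) : Type u := {s : Set α // #s < θ}

theorem card_sm {θ κ : Cardinal.{u}} (hκ : ℵ₀ ≤ κ) (hθκ : θ ≤ κ) (hp : κ ^< θ ≤ κ)
    (α : Type u) (hα : #α ≤ κ) : #(Sm θ α) ≤ κ := by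
  let W : θ.ord.ToType → Type u := fun i => (Ordinal.ToType.toOrd i : Ordinal.{u}).ToType
  have hW : ∀ i, #(W i) < θ := by
    intro i
    have h1 : (Ordinal.ToType.toOrd i : Ordinal.{u}) < θ.ord := (Ordinal.ToType.toOrd i).2
    rw [lt_ord] at h1
    simpa [W] using h1
  let g : (Σ i : θ.ord.ToType, (W i → α)) → Sm θ α := fun p =>
    ⟨range p.2, mk_range_le.trans_lt (hW p.1)⟩
  have hg : Function.Surjective g := by
    rintro ⟨s, hs⟩
    have h1 : (#s).ord < θ.ord := ord_lt_ord.2 hs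
    let i : θ.ord.ToType := Ordinal.ToType.mk ⟨(#s).ord, h1⟩
    have h2 : #(W i) = #s := by
      simp [W, i]
    obtain ⟨e⟩ := Cardinal.eq.1 h2
    refine ⟨⟨i, fun w => (e w : α)⟩, ?_⟩
    apply Subtype.ext
    change range (fun w => (e w : α)) = s
    ext x
    constructor
    · rintro ⟨w, rfl⟩
      exact (e w).2
    · intro hx
      exact ⟨e.symm ⟨x, hx⟩, by simp⟩
  refine (mk_le_of_surjective hg).trans ?_
  rw [mk_sigma]
  have h3 : ∀ i : θ.ord.ToType, #(W i → α) ≤ κ := by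
    intro i
    rw [← power_def]
    refine (power_le_power_right hα).trans ?_
    exact (le_powerlt κ (hW i)).trans hp
  refine (sum_le_sum _ (fun _ => κ) h3).trans ?_
  simp only [sum_const, lift_id, mk_toType, card_ord]
  exact (mul_le_mul' hθκ le_rfl).trans (mul_eq_self hκ).le

/-- A `θ`-independent family modulo small sets, indexed by all subsets of `X`. -/
theorem exists_independent (X : Type u) [Infinite X] (θ : Cardinal.{u}) (hθ : θ.IsRegular)
    (hp : #X ^< θ = #X) :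
    ∃ A : Set X → Set X, ∀ (F P : Set (Set X)) (E : Set X), #F < θ → #E < θ →
      ∃ x, x ∉ E ∧ ∀ i ∈ F, (x ∈ A i ↔ i ∈ P) := by
  classical
  have hX : ℵ₀ ≤ #X := aleph0_le_mk X
  have hθ0 : ℵ₀ ≤ θ := hθ.aleph0_le
  have hθX : θ ≤ #X := by
    by_contra hcon
    push Not at hcon
    have h1 := le_powerlt #X hcon
    rw [hp] at h1
    exact absurd h1 (not_le.2 (cantor' _ (one_lt_aleph0.trans_le hX)))
  let Y : Type u := Sm θ X × Sm θ (Sm θ X)
  have hY1 : #(Sm θ X) ≤ #X := card_sm hX hθX hp.le X le_rfl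
  have hY : #Y = #X := by
    apply le_antisymm
    · have h2 : #(Sm θ (Sm θ X)) ≤ #X := card_sm hX hθX hp.le _ hY1
      calc #Y = #(Sm θ X) * #(Sm θ (Sm θ X)) := by simp [Y]
        _ ≤ #X * #X := mul_le_mul' hY1 h2
        _ = #X := mul_eq_self hX
    · have hs : ∀ x : X, #({x} : Set X) < θ := fun x =>
        (lt_aleph0_of_finite _).trans_le hθ0
      have he : #(∅ : Set (Sm θ X)) < θ := (lt_aleph0_of_finite _).trans_le hθ0
      refine mk_le_of_injective (f := fun x : X => ((⟨{x}, hs x⟩, ⟨∅, he⟩) : Y)) ?_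
      intro x y hxy
      have := congrArg (fun p : Y => (p.1 : Set X)) hxy
      simpa using this
  -- the independent family on `Y`
  have hcap : ∀ (s : Sm θ X) (i : Set X), #((s : Set X) ∩ i : Set X) < θ := fun s i =>
    (mk_le_mk_of_subset inter_subset_left).trans_lt s.2
  let A0 : Set X → Set Y := fun i => {y | (⟨(y.1 : Set X) ∩ i, hcap y.1 i⟩ : Sm θ X) ∈ y.2.1}
  have main : ∀ (F P : Set (Set X)) (E : Set Y), #F < θ → #E < θ →
      ∃ y, y ∉ E ∧ ∀ i ∈ F, (y ∈ A0 i ↔ i ∈ P) := by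
    intro F P E hF hE
    -- a small set separating the members of `F`
    have hsep : ∀ p : F × F, ∃ x : X, (p.1 : Set X) ≠ p.2 → ¬ (x ∈ (p.1 : Set X) ↔ x ∈ (p.2 : Set X)) := by
      intro p
      by_cases h : (p.1 : Set X) = p.2
      · exact ⟨Classical.arbitrary X, fun h' => absurd h h'⟩
      · by_contra hcon
        push Not at hcon
        apply h
        ext x
        exact (hcon x).2
    choose d hd using hsep
    have hFF : #(F × F) < θ := by
      rw [mk_prod, lift_id]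
      exact mul_lt_of_lt hθ0 hF hF
    -- a point outside the first components of `E`
    have hU : #(⋃ e : E, ((e : Y).1 : Set X)) < θ :=
      (card_iUnion_lt_iff_forall_of_isRegular hθ hE).2 fun e => (e : Y).1.2
    obtain ⟨z, hz⟩ : ∃ z : X, z ∉ ⋃ e : E, ((e : Y).1 : Set X) := by
      by_contra hcon
      push Not at hcon
      have : (⋃ e : E, ((e : Y).1 : Set X)) = univ := eq_univ_of_forall hcon
      rw [this, mk_univ] at hU
      exact absurd hU (not_lt.2 hθX)
    have hs : #((range d ∪ {z} : Set X)) < θ := by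
      refine (mk_union_le _ _).trans_lt (add_lt_of_lt hθ0 (mk_range_le.trans_lt hFF) ?_)
      exact (lt_aleph0_of_finite _).trans_le hθ0
    let s : Sm θ X := ⟨range d ∪ {z}, hs⟩
    let t : Set (Sm θ X) := (fun i : Set X => (⟨(s : Set X) ∩ i, hcap s i⟩ : Sm θ X)) '' (F ∩ P)
    have ht : #t < θ := (mk_image_le.trans (mk_le_mk_of_subset inter_subset_left)).trans_lt hF
    refine ⟨(s, ⟨t, ht⟩), ?_, ?_⟩
    · intro hmem
      apply hz
      rw [mem_iUnion]
      exact ⟨⟨_, hmem⟩, Or.inr rfl⟩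
    · intro i hi
      change (⟨(s : Set X) ∩ i, hcap s i⟩ : Sm θ X) ∈ t ↔ i ∈ P
      constructor
      · rintro ⟨j, ⟨hjF, hjP⟩, hj⟩
        have hj' : (s : Set X) ∩ j = (s : Set X) ∩ i := congrArg Subtype.val hj
        have hij : j = i := by
          by_contra hne
          have h1 := hd (⟨j, hjF⟩, ⟨i, hi⟩) hne
          have h2 : d (⟨j, hjF⟩, ⟨i, hi⟩) ∈ (s : Set X) := Or.inl ⟨_, rfl⟩
          have h3 := Set.ext_iff.1 hj' (d (⟨j, hjF⟩, ⟨i, hi⟩))
          apply h1
          constructor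
          · intro h; exact (h3.1 ⟨h2, h⟩).2
          · intro h; exact (h3.2 ⟨h2, h⟩).2
        rw [← hij]
        exact hjP
      · intro hP
        exact ⟨i, ⟨hi, hP⟩, rfl⟩
  obtain ⟨e⟩ := Cardinal.eq.1 hY
  refine ⟨fun i => e '' A0 i, ?_⟩
  intro F P E hF hE
  obtain ⟨y, hy1, hy2⟩ := main F P (e ⁻¹' E) hF (by
    refine lt_of_le_of_lt ?_ hE
    exact mk_preimage_of_injective e E e.injective)
  refine ⟨e y, hy1, fun i hi => ?_⟩
  rw [← hy2 i hi]
  constructor
  · rintro ⟨w, hw, hwy⟩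
    rwa [← e.injective hwy]
  · intro h
    exact ⟨y, h, rfl⟩

section

variable {X : Type u} {θ : Cardinal.{u}}

/-- the algebra `B_J` -/
def Alg (θ : Cardinal.{u}) (A : Set X → Set X) (J : Set (Set X)) : Set (Set X) :=
  {Z | ∃ F : Set (Set X), ∃ E : Set X, F ⊆ J ∧ #F < θ ∧ #E < θ ∧
    ∀ x y, x ∉ E → y ∉ E → (∀ j ∈ F, (x ∈ A j ↔ y ∈ A j)) → (x ∈ Z ↔ y ∈ Z)}

theorem isAlgebra_alg (hθ : θ.IsRegular) (A : Set X → Set X) (J : Set (Set X)) :
    IsAlgebra θ (Alg θ A J) := by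
  constructor
  · rintro Z ⟨F, E, h1, h2, h3, h4⟩
    exact ⟨F, E, h1, h2, h3, fun x y hx hy h => not_congr (h4 x y hx hy h)⟩
  · intro M hM hMθ
    have hM' : ∀ Z ∈ M, ∃ F : Set (Set X), ∃ E : Set X, F ⊆ J ∧ #F < θ ∧ #E < θ ∧
        ∀ x y, x ∉ E → y ∉ E → (∀ j ∈ F, (x ∈ A j ↔ y ∈ A j)) → (x ∈ Z ↔ y ∈ Z) :=
      fun Z hZ => hM hZ
    choose! F E h1 h2 h3 h4 using hM'
    refine ⟨⋃ Z : M, F Z, ⋃ Z : M, E Z, ?_, ?_, ?_, ?_⟩
    · exact iUnion_subset fun Z => h1 _ Z.2
    · exact (card_iUnion_lt_iff_forall_of_isRegular hθ hMθ).2 fun Z => h2 _ Z.2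
    · exact (card_iUnion_lt_iff_forall_of_isRegular hθ hMθ).2 fun Z => h3 _ Z.2
    · intro x y hx hy h
      rw [mem_iUnion] at hx hy
      push Not at hx hy
      have key : ∀ Z ∈ M, (x ∈ Z ↔ y ∈ Z) := fun Z hZ =>
        h4 Z hZ x y (hx ⟨Z, hZ⟩) (hy ⟨Z, hZ⟩) fun j hj => h j (mem_iUnion.2 ⟨⟨Z, hZ⟩, hj⟩)
      constructor
      · rintro ⟨Z, hZ, hx'⟩
        exact ⟨Z, hZ, (key Z hZ).1 hx'⟩
      · rintro ⟨Z, hZ, hx'⟩
        exact ⟨Z, hZ, (key Z hZ).2 hx'⟩

theorem singleton_mem_alg (hθ : ℵ₀ ≤ θ) (A : Set X → Set X) (J : Set (Set X)) (x : X) :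
    {x} ∈ Alg θ A J := by
  refine ⟨∅, {x}, empty_subset _, (lt_aleph0_of_finite _).trans_le hθ,
    (lt_aleph0_of_finite _).trans_le hθ, fun y z hy hz _ => ?_⟩
  exact ⟨fun h => absurd h hy, fun h => absurd h hz⟩

theorem mem_alg (hθ : ℵ₀ ≤ θ) (A : Set X → Set X)
    (hA : ∀ (F P : Set (Set X)) (E : Set X), #F < θ → #E < θ →
      ∃ x, x ∉ E ∧ ∀ i ∈ F, (x ∈ A i ↔ i ∈ P)) (J : Set (Set X)) (i : Set X) :
    A i ∈ Alg θ A J ↔ i ∈ J := by
  constructor
  · rintro ⟨F, E, h1, h2, h3, h4⟩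
    by_contra hi
    have hiF : i ∉ F := fun h => hi (h1 h)
    have hF : #(insert i F : Set (Set X)) < θ := by
      refine (mk_insert_le).trans_lt (add_lt_of_lt hθ h2 (one_lt_aleph0.trans_le hθ))
    obtain ⟨x, hx, hx'⟩ := hA (insert i F) {i} E hF h3
    obtain ⟨y, hy, hy'⟩ := hA (insert i F) ∅ E hF h3
    have h5 := h4 x y hx hy (fun j hj => by
      rw [hx' j (mem_insert_of_mem _ hj), hy' j (mem_insert_of_mem _ hj)]
      constructor
      · intro h
        exact absurd hj (by rw [mem_singleton_iff.1 h]; exact hiF)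
      · intro h
        exact absurd h (by simp))
    rw [hx' i (mem_insert _ _), hy' i (mem_insert _ _)] at h5
    simp at h5
  · intro hi
    refine ⟨{i}, ∅, singleton_subset_iff.2 hi, (lt_aleph0_of_finite _).trans_le hθ,
      (lt_aleph0_of_finite _).trans_le hθ, fun x y _ _ h => h i rfl⟩

end

theorem count (X : Type u) [Infinite X] (θ : Cardinal.{u}) (hθ : θ.IsRegular)
    (hp : #X ^< θ = #X) :
    #(Quotient (isoSetoid X θ hθ.aleph0_le)) = 2 ^ (2 ^ #X : Cardinal.{u}) := by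
  have hX : ℵ₀ ≤ #X := aleph0_le_mk X
  have hXX : #(Set (Set X)) = 2 ^ (2 ^ #X : Cardinal.{u}) := by
    rw [mk_set, mk_set]
  apply le_antisymm
  · rw [← hXX]
    exact mk_quotient_le.trans (mk_subtype_le _)
  · rw [← hXX]
    obtain ⟨A, hA⟩ := exists_independent X θ hθ hp
    have hinj : Function.Injective (Alg θ A) := by
      intro J J' h
      ext i
      rw [← mem_alg hθ.aleph0_le A hA J i, h, mem_alg hθ.aleph0_le A hA J' i]
    refine le_card_of_fibres
      (fun J => Quotient.mk (isoSetoid X θ hθ.aleph0_le) ⟨Alg θ A J, isAlgebra_alg hθ A J⟩)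
      ((2 : Cardinal.{u}) ^ #X) ?_ ?_ ?_
    · rw [hXX]
      exact hX.trans ((cantor _).le.trans (cantor _).le)
    · rw [hXX]; exact cantor _
    · intro J
      have h1 : #(X → X) = (2 : Cardinal.{u}) ^ #X := by
        rw [← power_def]
        exact power_self_eq hX
      rw [← h1]
      have hch : ∀ y : {y // Quotient.mk (isoSetoid X θ hθ.aleph0_le)
            ⟨Alg θ A y, isAlgebra_alg hθ A y⟩ = Quotient.mk (isoSetoid X θ hθ.aleph0_le)
            ⟨Alg θ A J, isAlgebra_alg hθ A J⟩},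
          ∃ π : X → X, Alg θ A y.1 = (fun Z => π '' Z) '' (Alg θ A J) := by
        intro y
        have h2 : Isomorphic (Alg θ A y.1) (Alg θ A J) := Quotient.exact y.2
        exact exists_map hθ.aleph0_le (isAlgebra_alg hθ A J) (singleton_mem_alg hθ.aleph0_le A _)
          (singleton_mem_alg hθ.aleph0_le A _)
          (isomorphic_symm (isAlgebra_alg hθ A _) hθ.aleph0_le h2)
      choose g hg using hch
      refine mk_le_of_injective (f := g) (fun y z hyz => ?_)
      apply Subtype.ext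
      apply hinj
      rw [hg y, hg z, hyz]

/-- **The number of isomorphism types of complete algebras of sets.** Let `θ` be a regular cardinal
and `X` an infinite set with `|X|^{<θ} = |X|`. The number of isomorphism classes (as abstract
Boolean algebras) of `θ`-complete algebras of subsets of `X` is `2 ^ (2 ^ |X|)`, the greatest
possible value. In particular this holds for the algebras of subsets of every infinite set, and for
the `σ`-algebras of subsets of `ℝ` (algebras closed under unions of fewer than `ℵ₁`, that is, of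
countably many members). -/
theorem result :
    (∀ (X : Type u) [Infinite X] (θ : Cardinal.{u}) (hθ : θ.IsRegular), #X ^< θ = #X →
      #(Quotient (isoSetoid X θ hθ.aleph0_le)) = 2 ^ (2 ^ #X : Cardinal.{u})) ∧
    (∀ (X : Type u) [Infinite X],
      #(Quotient (isoSetoid X ℵ₀ le_rfl)) = 2 ^ (2 ^ #X : Cardinal.{u})) ∧
    #(Quotient (isoSetoid ℝ ℵ₁ (aleph0_le_aleph 1))) =
      2 ^ (2 ^ continuum.{0} : Cardinal.{0}) := by
  refine ⟨fun X _ θ hθ hp => count X θ hθ hp, fun X _ => ?_, ?_⟩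
  · exact count X ℵ₀ isRegular_aleph0 (powerlt_aleph0 (aleph0_le_mk X))
  · rw [← mk_real]
    refine count ℝ ℵ₁ isRegular_aleph_one ?_
    rw [← succ_aleph0, powerlt_succ (by rw [mk_real]; exact continuum_ne_zero), mk_real,
      continuum_power_aleph0]

end Pool.Agent.Results.MP_4ec73f_lc.CompleteAlgebras
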